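import Mathlib
import Pool.Agent.R974.SA.R3
import Pool.Agent.R644.SAS

/-! MP_d3a052_pr, Q1: for every fixed integer `k ≥ 2` there is a constant `c_k > 0` with
`m(d,k) ~ c_k / (2^d d)` as `d → ∞`. Here (`Pool.Agent.R974.SA`)
`E n` is Euclidean `n`-space, `pos x` the positive hull of the family `x`, `sph n` the uniform
(normalised surface) probability measure on the unit sphere, `angle C = sph n (C ∩ S)` the normalised
solid angle, and `m d k = ∫ angle(pos(U_1, …, U_d))^k` over `d` independent uniform points of the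
unit sphere of `E d`. -/

namespace Pool.Agent.Results.MP_d3a052_pr.MomentAsymptotics

open MeasureTheory Filter Topology Pool.Agent.R974.SA

theorem result : ∀ k : ℕ, 2 ≤ k → ∃ c : ℝ, 0 < c ∧
    Tendsto (fun d : ℕ => 2 ^ d * (d : ℝ) * m d k) atTop (𝓝 c) ∧
    Asymptotics.IsEquivalent atTop (fun d : ℕ => m d k) (fun d : ℕ => c / (2 ^ d * (d : ℝ))) := by
  intro k hk
  obtain ⟨c, hc, h⟩ := main Pool.Agent.R644.SAS.stmS Pool.Agent.R644.SAD.stmD k hk
  refine ⟨c, hc, h, ?_⟩
  rw [Asymptotics.isEquivalent_iff_tendsto_one]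
  · have h1 := h.div_const c
    rw [div_self hc.ne'] at h1
    refine h1.congr (fun d => ?_)
    simp only [Pi.div_apply]
    rw [div_div_eq_mul_div]
    ring
  · filter_upwards [eventually_gt_atTop 0] with d hd
    have hd' : (0:ℝ) < d := by exact_mod_cast hd
    positivity

end Pool.Agent.Results.MP_d3a052_pr.MomentAsymptotics
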